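import Pool.Agent.Helper62.NT.Goals

/-! Project NT, packet LPS: sums of coordinates. -/

set_option autoImplicit false

open scoped ENNReal

namespace Pool.Agent.Helper17.NT.LPS

open Pool.Agent.Helper62.NT

section

variable {ι X : Type} [NormedAddCommGroup X] {e : ι → ℕ}

/-- extension by zero along `e` -/
noncomputable def ext (e : ι → ℕ) (g : ι → X) : ℕ → X := Function.extend e g 0

theorem ext_apply (he : Function.Injective e) (g : ι → X) (c : ι) : ext e g (e c) = g c :=
  he.extend_apply g 0 c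

theorem ext_out (g : ι → X) {k : ℕ} (hk : k ∉ Set.range e) : ext e g k = 0 := by
  unfold ext
  rw [Function.extend_apply' _ _ _ (fun ⟨a, ha⟩ => hk ⟨a, ha⟩)]
  rfl

theorem sum_le (he : Function.Injective e) (g : ι → X) (D : ℝ) (h : ∀ F : Finset ι, ∑ c ∈ F, ‖g c‖ ≤ D)
    (s : Finset ℕ) : ∑ i ∈ s, ‖ext e g i‖ ≤ D := by
  have h1 := Finset.sum_preimage e s he.injOn (fun i => ‖ext e g i‖) (by
    intro x _ hx
    rw [ext_out g hx, norm_zero])
  rw [← h1]
  refine le_trans (le_of_eq ?_) (h (s.preimage e he.injOn))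
  refine Finset.sum_congr rfl fun c _ => ?_
  rw [ext_apply he]

theorem sum_sq_le (he : Function.Injective e) (g : ι → X) (D : ℝ) (h : ∀ F : Finset ι, ∑ c ∈ F, ‖g c‖ ≤ D)
    (s : Finset ℕ) : ∑ i ∈ s, ‖ext e g i‖ ^ (2 : ℝ≥0∞).toReal ≤ D ^ (2 : ℝ≥0∞).toReal := by
  have hD : 0 ≤ D := by simpa using h ∅
  have h2 : ((2 : ℝ≥0∞).toReal) = ((2 : ℕ) : ℝ) := by simp
  rw [h2, Real.rpow_natCast]
  have h3 : ∑ i ∈ s, ‖ext e g i‖ ^ (((2 : ℕ) : ℝ)) = ∑ i ∈ s, ‖ext e g i‖ ^ 2 :=
    Finset.sum_congr rfl fun i _ => Real.rpow_natCast _ _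
  rw [h3]
  calc ∑ i ∈ s, ‖ext e g i‖ ^ 2 ≤ (∑ i ∈ s, ‖ext e g i‖) ^ 2 := by
        apply Finset.sum_sq_le_sq_sum_of_nonneg
        intro i _
        exact norm_nonneg _
    _ ≤ D ^ 2 := by
        apply pow_le_pow_left₀ (Finset.sum_nonneg fun i _ => norm_nonneg _)
        exact sum_le he g D h s

end

theorem t : S_LPS := by
  intro ι _ M _ X _ _ o φ C hC ho hφ
  obtain ⟨e, he⟩ := exists_injective_nat ι
  have hmem : ∀ x, Memℓp (ext e fun c => φ c x) 2 := by
    intro x
    refine memℓp_gen' (C := (C * dist x o) ^ (2 : ℝ≥0∞).toReal) ?_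
    intro s
    refine sum_sq_le he _ _ ?_ s
    intro F
    have := hφ F x o
    simpa [ho] using this
  refine ⟨fun x => ⟨ext e fun c => φ c x, hmem x⟩, ?_, ?_, ?_⟩
  · apply Subtype.ext
    funext k
    by_cases hk : k ∈ Set.range e
    · obtain ⟨c, rfl⟩ := hk
      simp only
      rw [ext_apply he, ho]
      rfl
    · simp only
      rw [ext_out _ hk]
      rfl
  · intro x y
    rw [dist_eq_norm]
    refine lp.norm_le_of_forall_sum_le (by norm_num) (mul_nonneg hC dist_nonneg) ?_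
    intro s
    have h1 : ∀ k, (((⟨ext e fun c => φ c x, hmem x⟩ : lp (fun _ : ℕ => X) 2) -
        ⟨ext e fun c => φ c y, hmem y⟩ : lp (fun _ : ℕ => X) 2) : ℕ → X) k =
        ext e (fun c => φ c x - φ c y) k := by
      intro k
      by_cases hk : k ∈ Set.range e
      · obtain ⟨c, rfl⟩ := hk
        rw [ext_apply he]
        change ext e (fun c => φ c x) (e c) - ext e (fun c => φ c y) (e c) = _
        rw [ext_apply he, ext_apply he]
      · rw [ext_out _ hk]
        change ext e (fun c => φ c x) k - ext e (fun c => φ c y) k = _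
        rw [ext_out _ hk, ext_out _ hk, sub_zero]
    rw [Finset.sum_congr rfl fun k _ => by rw [h1 k]]
    exact sum_sq_le he _ _ (fun F => hφ F x y) s
  · intro c x y
    rw [dist_eq_norm, dist_eq_norm]
    have h1 := lp.norm_apply_le_norm (p := 2) (by norm_num)
      ((⟨ext e fun c => φ c x, hmem x⟩ : lp (fun _ : ℕ => X) 2) - ⟨ext e fun c => φ c y, hmem y⟩) (e c)
    refine le_trans (le_of_eq ?_) h1
    change _ = ‖ext e (fun c => φ c x) (e c) - ext e (fun c => φ c y) (e c)‖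
    rw [ext_apply he, ext_apply he]

end Pool.Agent.Helper17.NT.LPS
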